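import Pool.Agent.helper132_hp.WAs

/-!
# Weak approximation for quadratic forms in `k`-th powers in `≥ C k ^ 65` variables

Let `Q` be a rational quadratic form of rank `s` and `F(y) = Q(y_1 ^ k, …, y_s ^ k)`, a form of degree
`2 k`. There is a constant `C` such that, for all `k ≥ 1` and `s ≥ C k ^ 65`, the rational zeros of `F`
are dense in the product of the set of the nonsingular real zeros and of the sets of all `p`-adic
zeros (singular or not) for the primes `p` of a finite set; for odd `k` all real zeros are allowed, if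
there is a nonzero one.

In particular, if the hypersurface `X : F = 0` in `ℙ ^ (s - 1)` is smooth (and then it is a Fano
variety, since `s > 2 k`) and has a real point, then `X(ℚ)` is dense in the set of the adelic points.
-/

set_option autoImplicit false

namespace Pool.Agent.Results.MP_12adaf_nt.QuadraticFormsInPowers

open Pool.Agent.helper132_hp

theorem result : ∃ C : ℕ, ∀ k ≥ 1, ∀ s ≥ C * k ^ 65, ∀ A : Matrix (Fin s) (Fin s) ℚ,
    A.IsSymm → A.det ≠ 0 →
    -- a real zero, nonsingular or (for odd `k`) arbitrary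
    ∀ y : Fin s → ℝ, FF ℝ A k y = 0 → (SmoothAt ℝ A k y ∨ (Odd k ∧ HasZero ℝ A k)) →
    -- arbitrary `p`-adic zeros for the primes of a finite set
    ∀ (S : Finset ℕ) (Y : ∀ (p : ℕ) [Fact p.Prime], Fin s → ℚ_[p]),
      (∀ p ∈ S, ∀ [Fact p.Prime], FF ℚ_[p] A k (Y p) = 0) →
    ∀ ε : ℝ, 0 < ε → ∃ z : Fin s → ℚ, FF ℚ A k z = 0 ∧ (∀ l, |(z l : ℝ) - y l| < ε) ∧
      ∀ p ∈ S, ∀ [Fact p.Prime], ∀ l, ‖((z l : ℚ) : ℚ_[p]) - Y p l‖ < ε :=
  was

end Pool.Agent.Results.MP_12adaf_nt.QuadraticFormsInPowers
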